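import Pool.Agent.N728.QU.LinT

set_option autoImplicit false

/-!
# The Liouville function at the values of `n³ + b n + 2`

For every integer `c ≠ 0`, for example `c = 2`, and all but at most `ε B` of the integers `b ≤ B` the sums of the
Liouville function of `n³ + b n + c` over `n ≤ N`, `N ≤ T`, are at most `ε T` in absolute value, where `T²` is at most
`K B` and at least `B / (log B)^C`, uniformly in `|c| ≤ K B T`. In particular `λ(n³ + b n + 2) = -1` for `(1/2 + o(1)) T`
of the `n ≤ T`, for 100 percent of the `b ≤ B`; `b = 0` is the polynomial `n³ + 2`.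

Proof (`Agent/N728/QL`, `Agent/N728/QG`, `Agent/N728/QU`): `n³ + b n + c = u v + c` with `u = n`, `v = n² + b`. Bilinear sums
over `u v + c` with an arbitrary bounded function of `v - u²` do not change if a divisor of `u v`, composed of primes of a
suitable range, is moved from `u` to `v`; the off-diagonal terms are bounded by two applications of the Cauchy-Schwarz
inequality and the fundamental lemma of the sieve, the main term by the theorem of Bombieri and Vinogradov for `λ`.
-/

namespace Pool.Agent.Results.MP_69e71a_nt.LinearCoefficient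

open Finset

/-- The Liouville function of `|n|`; its value at `0` is `0`. -/
noncomputable def liouville (n : ℤ) : ℝ := if n = 0 then 0 else (-1) ^ (ArithmeticFunction.cardFactors n.natAbs)

open Classical in
/-- The number of the integers `1 ≤ b ≤ B` for which one of the sums over `n ≤ N`, `N ≤ T`, of the Liouville function of
`n³ + b n + c` exceeds `ε T` in absolute value. -/
noncomputable def exceptions (ε : ℝ) (B T : ℕ) (c : ℤ) : ℕ :=
  ((Icc 1 B).filter (fun b : ℕ => ∃ N : ℕ, N ≤ T ∧
    ε * T < |∑ n ∈ Icc 1 N, liouville ((n : ℤ) ^ 3 + b * n + c)|)).card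

/-- **Theorem.** -/
theorem result (ε : ℝ) (hε : 0 < ε) (K C : ℕ) : ∃ B₀ : ℕ, ∀ B : ℕ, B₀ ≤ B → ∀ (T : ℕ) (c : ℤ), c ≠ 0 →
    (c.natAbs : ℝ) ≤ K * ((B : ℝ) * T) → (B : ℝ) ≤ (T : ℝ) ^ 2 * Real.log B ^ C → T ^ 2 ≤ K * B →
    (exceptions ε B T c : ℝ) ≤ ε * B := by
  classical
  have hdeg : (Polynomial.X ^ 3 : Polynomial ℤ).natDegree = 3 := Polynomial.natDegree_X_pow 3
  have hlc : (Polynomial.X ^ 3 : Polynomial ℤ).leadingCoeff = 1 := Polynomial.leadingCoeff_X_pow 3
  have hc0 : (Polynomial.X ^ 3 : Polynomial ℤ).coeff 0 = 0 := by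
    rw [Polynomial.coeff_X_pow]
    simp
  obtain ⟨B₀, h1⟩ := Pool.Agent.N728.QU.LinT.result (Polynomial.X ^ 3) (by rw [hdeg]; norm_num)
    (by rw [hlc]; norm_num) ε K C hε
  rw [hdeg, hc0] at h1
  refine ⟨B₀, fun B hB T c hc hcK hBT hTK => ?_⟩
  refine le_trans (le_of_eq ?_) (h1 B hB T c (by rw [zero_add]; exact hc) hcK hBT hTK)
  unfold exceptions Pool.Agent.N728.QU.LinT.exceptions
  congr 2
  apply filter_congr
  intro b _
  have e0 : ∀ N : ℕ, ∑ t ∈ Icc 1 N, Pool.Agent.N728.QU.LinT.liouville
      (Pool.Agent.N728.QU.LinT.f (Polynomial.X ^ 3) b c t) = ∑ n ∈ Icc 1 N, liouville ((n : ℤ) ^ 3 + b * n + c) := by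
    intro N
    apply sum_congr rfl
    intro n _
    have e1 : Pool.Agent.N728.QU.LinT.f (Polynomial.X ^ 3) b c n = (n : ℤ) ^ 3 + b * n + c := by
      unfold Pool.Agent.N728.QU.LinT.f
      rw [Polynomial.eval_pow, Polynomial.eval_X]
    rw [e1]
    rfl
  simp only [e0]

end Pool.Agent.Results.MP_69e71a_nt.LinearCoefficient
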